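import Mathlib
import Pool.Agent.H152.TT.Defs
import Pool.Agent.H152.TT.Defs2
import Pool.Agent.H152.HR.Defs2
import Pool.Agent.H152.HR.Gen
import Pool.Agent.H152.HR.Num4
import Pool.Agent.H152.HR.Num5

set_option autoImplicit false

open Finset

namespace Pool.Agent.Results.MP_ac0d5f_co.GeneralRatio2

open H152TT H152HR

/-- a general upper bound for the ratio in terms of the vertices of degree at least two and of
the vertices on cycles -/
theorem result {k : ℕ} (P : SimpleGraph (Fin k)) (hO : OrdBip P) (hv : 1 ≤ innerVerts P) :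
    (∀ r : ℕ, 1 ≤ r → FewCycles r P → ¬ FewCycles (r - 1) P →
      ∀ s : ℕ, (s = (r + 1) / 2 + 1 ∨ 2 * r + innerLeaves P < 2 * s ^ 2) →
      ∀ ε : ℝ, 0 < ε → ∃ N : ℕ, ∀ n : ℕ, N ≤ n → ratio P n ≤
        (n : ℝ) ^ (1 - (r : ℝ) / ((cycVerts P : ℝ) - 2 + r) - 1 / (s : ℝ) + ε)) ∧
    (∃ N : ℕ, ∀ n : ℕ, N ≤ n → ratio P n ≤
      (n : ℝ) ^ (1 - 18 / (5 * (Real.sqrt (innerVerts P) + 3)))) ∧
    (¬ P.IsAcyclic → ∃ N : ℕ, ∀ n : ℕ, N ≤ n → ratio P n ≤
      (n : ℝ) ^ (1 - 14 / (5 * (Real.sqrt (cycVerts P) + 2)))) ∧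
    (¬ P.IsAcyclic → innerLeaves P = 0 → ∃ N : ℕ, ∀ n : ℕ, N ≤ n → ratio P n ≤
      (n : ℝ) ^ (1 - 9 / (5 * ((cycVerts P : ℝ) ^ ((1 : ℝ) / 3) + 1)))) := by
  have hP := two_edges P hv
  have hvR : (1 : ℝ) ≤ innerVerts P := by exact_mod_cast hv
  have hWc := cycVerts_le P
  refine ⟨fun r hr hR hnot s hs ε hε => gen_bound P r hr hR hnot s hs ε hε, ?_⟩
  obtain ⟨r, hRr, hnot'⟩ := exists_least P hO
  rcases Nat.eq_zero_or_pos r with h0 | h0
  · -- a forest
    rw [h0] at hRr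
    have hacyc := few_zero P hRr
    refine ⟨forest_bound P hP hRr _ ?_, fun hc => absurd hacyc hc, fun hc => absurd hacyc hc⟩
    have h1 : (1 : ℝ) ≤ Real.sqrt (innerVerts P) := by
      rw [Real.one_le_sqrt]
      exact hvR
    rw [sub_pos, div_lt_one (by linarith)]
    linarith
  · have hnot := hnot' h0
    have hW3 := (gen_core P hO r h0 hnot).1
    obtain ⟨t, ht2, ht1, ht3⟩ := exists_side r (innerLeaves P) h0
    obtain ⟨u, hu⟩ : ∃ u, u = (r + 1) / 2 + 1 := ⟨_, rfl⟩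
    have fin : ∀ (s : ℕ) (δ : ℝ), (s = (r + 1) / 2 + 1 ∨
        2 * r + innerLeaves P < 2 * s ^ 2) →
        δ < 1 / (s : ℝ) + (r : ℝ) / ((cycVerts P : ℝ) - 2 + r) →
        ∃ N : ℕ, ∀ n : ℕ, N ≤ n → ratio P n ≤ (n : ℝ) ^ (1 - δ) := by
      intro s δ hs hδ
      obtain ⟨N, hN⟩ := gen_bound P r h0 hRr hnot s hs
        (1 / (s : ℝ) + (r : ℝ) / ((cycVerts P : ℝ) - 2 + r) - δ) (by linarith)
      refine ⟨N, fun n hn => (hN n hn).trans (le_of_eq ?_)⟩
      congr 1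
      ring
    have hmono : (r : ℝ) / ((innerVerts P : ℝ) - innerLeaves P - 2 + r) ≤
        (r : ℝ) / ((cycVerts P : ℝ) - 2 + r) := by
      have hW3R : (3 : ℝ) ≤ cycVerts P := by exact_mod_cast hW3
      have hrR : (1 : ℝ) ≤ r := by exact_mod_cast h0
      have hWcR : (cycVerts P : ℝ) + innerLeaves P ≤ innerVerts P := by exact_mod_cast hWc
      exact div_le_div_of_nonneg_left (by linarith) (by linarith) (by linarith)
    refine ⟨?_, fun _ => ?_, fun _ hl => ?_⟩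
    · rcases le_total u t with h | h
      · refine fin u _ (Or.inl hu) (lt_of_lt_of_le (gen_ineq (innerVerts P) (innerLeaves P) r u
          (by omega) (by omega) (by omega) ?_ h0) (add_le_add_right hmono _))
        have h1 : (u - 1) ^ 2 ≤ (t - 1) ^ 2 := Nat.pow_le_pow_left (by omega) 2
        omega
      · exact fin t _ (Or.inr ht1) (lt_of_lt_of_le (gen_ineq (innerVerts P) (innerLeaves P) r t
          (by omega) (by omega) (by omega) ht3 h0) (add_le_add_right hmono _))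
    · exact fin _ _ (Or.inl rfl) (numeric_general (cycVerts P) r hW3 h0)
    · exact fin t _ (Or.inr ht1) (gen_ineq0 (cycVerts P) r t hW3 ht2 (by omega) h0)

end Pool.Agent.Results.MP_ac0d5f_co.GeneralRatio2
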