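import Mathlib
import Pool.Agent.H152.TT.Defs
import Pool.Agent.H152.TT.Defs2
import Pool.Agent.H152.HR.Defs2
import Pool.Agent.H152.HR.Cmp
import Pool.Agent.H152.HR.Gen

set_option autoImplicit false

open Finset

namespace Pool.Agent.Results.MP_ac0d5f_co.HubWidth2

open H152TT H152HR

/-- patterns with few hubs and few inner neighbours per row, and patterns of bounded width -/
theorem result {k : ℕ} (s : ℕ) (hs : 1 ≤ s) (P : SimpleGraph (Fin k))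
    (hP : 2 ≤ P.edgeSet.ncard)
    (h : HubSide2 s P ∨ (OrdBip P ∧ innerEdges P < (s + 1) ^ 2) ∨ Tracked s P ∨
      (∃ r : ℕ, s = (r + 1) / 2 + 1 ∧ FewCycles r P) ∨
      (∃ a : ℕ, s = 2 * a + 1 ∧ FewHubs a P) ∨
      (∃ r : ℕ, FewCycles r P ∧ 2 * r + innerLeaves P < 2 * s ^ 2))
    (ε : ℝ) (hε : 0 < ε) :
    ∃ N : ℕ, ∀ n : ℕ, N ≤ n → (exOrd P n : ℝ) ≤ (n : ℝ) ^ (2 - 1 / (s : ℝ) + ε) ∧
      ratio P n ≤ (n : ℝ) ^ (1 - 1 / (s : ℝ) + ε) := by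
  have hup := good_upper s hs P h
  obtain ⟨N1, h1⟩ := hup ε hε
  obtain ⟨N2, h2⟩ := ratio_of P (2 - 1 / (s : ℝ)) 1 hup (lower_lin P hP) ε hε
  refine ⟨max N1 N2, fun n hn => ⟨h1 n ((le_max_left _ _).trans hn),
    (h2 n ((le_max_right _ _).trans hn)).trans (le_of_eq ?_)⟩⟩
  congr 1
  ring

end Pool.Agent.Results.MP_ac0d5f_co.HubWidth2
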