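import Mathlib
import Pool.Agent.H152.TT.Defs
import Pool.Agent.H152.TT.Defs2
import Pool.Agent.H152.TT.Lower
import Pool.Agent.H152.TT.DenseLower
import Pool.Agent.H152.TT.Deletion
import Pool.Agent.H152.HR.Defs2
import Pool.Agent.H152.HR.Six
import Pool.Agent.H152.HR.Cmp
import Pool.Agent.H152.HR.Gen

set_option autoImplicit false

open Finset

namespace Pool.Agent.Results.MP_ac0d5f_co.RatioPart2

open H152TT H152HR

/-- the ratio of a pattern in terms of a part of it -/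
theorem result {k : ℕ} (P : SimpleGraph (Fin k)) :
    (∀ s : ℕ, 1 ≤ s →
      (HubSide2 s P ∨ (OrdBip P ∧ innerEdges P < (s + 1) ^ 2) ∨ Tracked s P ∨
        (∃ r : ℕ, s = (r + 1) / 2 + 1 ∧ FewCycles r P) ∨
        (∃ a : ℕ, s = 2 * a + 1 ∧ FewHubs a P) ∨
        (∃ r : ℕ, FewCycles r P ∧ 2 * r + innerLeaves P < 2 * s ^ 2)) →
      ∀ γ : ℝ,
        ((∃ (f : ℕ) (F : SimpleGraph (Fin f)), F.IsContained P ∧ 2 ≤ F.edgeSet.ncard ∧
          γ = ((f : ℝ) - 2) / ((F.edgeSet.ncard : ℝ) - 1)) ∨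
        ((SimpleGraph.cycleGraph 4).IsContained P ∧ γ = 1 / 2) ∨
        ((SimpleGraph.cycleGraph 6).IsContained P ∧ γ = 2 / 3) ∨
        (((SimpleGraph.cycleGraph 8).IsContained P ∨
          (SimpleGraph.cycleGraph 10).IsContained P) ∧ γ = 4 / 5) ∨
        ((completeBipartiteGraph (Fin 3) (Fin 3)).IsContained P ∧ γ = 1 / 3)) →
      (∀ ε : ℝ, 0 < ε → ∃ N : ℕ, ∀ n : ℕ, N ≤ n →
        ratio P n ≤ (n : ℝ) ^ (γ - 1 / (s : ℝ) + ε)) ∧
      (γ < 1 / 3 + 1 / (s : ℝ) →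
        Filter.Tendsto (fun n : ℕ => ratio P n / (n : ℝ) ^ ((1 : ℝ) / 3))
          Filter.atTop (nhds 0))) ∧
    (OrdBip P → ((completeBipartiteGraph (Fin 3) (Fin 3)).IsContained P ∨
        ∃ (f : ℕ) (F : SimpleGraph (Fin f)), F.IsContained P ∧ 2 ≤ F.edgeSet.ncard ∧
          3 * f ≤ F.edgeSet.ncard + 5) →
      Filter.Tendsto (fun n : ℕ => ratio P n / (n : ℝ) ^ ((1 : ℝ) / 3))
        Filter.atTop (nhds 0)) := by
  have main : ∀ s : ℕ, 1 ≤ s →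
      (HubSide2 s P ∨ (OrdBip P ∧ innerEdges P < (s + 1) ^ 2) ∨ Tracked s P ∨
        (∃ r : ℕ, s = (r + 1) / 2 + 1 ∧ FewCycles r P) ∨
        (∃ a : ℕ, s = 2 * a + 1 ∧ FewHubs a P) ∨
        (∃ r : ℕ, FewCycles r P ∧ 2 * r + innerLeaves P < 2 * s ^ 2)) →
      ∀ γ : ℝ,
        ((∃ (f : ℕ) (F : SimpleGraph (Fin f)), F.IsContained P ∧ 2 ≤ F.edgeSet.ncard ∧
          γ = ((f : ℝ) - 2) / ((F.edgeSet.ncard : ℝ) - 1)) ∨
        ((SimpleGraph.cycleGraph 4).IsContained P ∧ γ = 1 / 2) ∨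
        ((SimpleGraph.cycleGraph 6).IsContained P ∧ γ = 2 / 3) ∨
        (((SimpleGraph.cycleGraph 8).IsContained P ∨
          (SimpleGraph.cycleGraph 10).IsContained P) ∧ γ = 4 / 5) ∨
        ((completeBipartiteGraph (Fin 3) (Fin 3)).IsContained P ∧ γ = 1 / 3)) →
      (∀ ε : ℝ, 0 < ε → ∃ N : ℕ, ∀ n : ℕ, N ≤ n →
        ratio P n ≤ (n : ℝ) ^ (γ - 1 / (s : ℝ) + ε)) ∧
      (γ < 1 / 3 + 1 / (s : ℝ) →
        Filter.Tendsto (fun n : ℕ => ratio P n / (n : ℝ) ^ ((1 : ℝ) / 3))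
          Filter.atTop (nhds 0)) := by
    intro s hs h γ hγ
    have hup := good_upper s hs P h
    have hlow : ∃ c : ℝ, 0 < c ∧ ∃ N : ℕ, ∀ n : ℕ, N ≤ n →
        c * (n : ℝ) ^ (2 - γ) ≤ (SimpleGraph.extremalNumber n P : ℝ) := by
      rcases hγ with ⟨f, F, hF, he, rfl⟩ | ⟨hc, rfl⟩ | ⟨hc, rfl⟩ | ⟨hc, rfl⟩ | ⟨hc, rfl⟩
      · exact lower_mono F P hF _ (ex_lower_density F _ rfl he (two_verts F he))
      · have h1 := lower_mono _ P hc _ ex_lower_four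
        have h2 : (3 / 2 : ℝ) = 2 - 1 / 2 := by norm_num
        rwa [h2] at h1
      · have h1 := lower_mono _ P hc _ ex_lower_six
        have h2 : (4 / 3 : ℝ) = 2 - 2 / 3 := by norm_num
        rwa [h2] at h1
      · have h2 : (6 / 5 : ℝ) = 2 - 4 / 5 := by norm_num
        rw [← h2]
        rcases hc with hc | hc
        · exact lower_mono _ P hc _ (ex_lower_ten 4 (by norm_num) (by norm_num))
        · exact lower_mono _ P hc _ (ex_lower_ten 5 (by norm_num) (by norm_num))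
      · have h1 := lower_mono _ P hc _ ex_lower_K33
        have h2 : (5 / 3 : ℝ) = 2 - 1 / 3 := by norm_num
        rwa [h2] at h1
    have hA : ∀ ε : ℝ, 0 < ε → ∃ N : ℕ, ∀ n : ℕ, N ≤ n →
        ratio P n ≤ (n : ℝ) ^ (γ - 1 / (s : ℝ) + ε) := by
      intro ε hε
      obtain ⟨N, hN⟩ := ratio_of P (2 - 1 / (s : ℝ)) (2 - γ) hup hlow ε hε
      refine ⟨N, fun n hn => (hN n hn).trans (le_of_eq ?_)⟩
      congr 1
      ring
    refine ⟨hA, fun hlt => ?_⟩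
    exact tendsto_third P _ (by linarith) (hA ((1 / 3 + 1 / (s : ℝ) - γ) / 2) (by linarith))
  refine ⟨main, fun hO h => ?_⟩
  obtain ⟨s, hs⟩ : ∃ s : ℕ, s = innerEdges P + 1 := ⟨_, rfl⟩
  have hs1 : 1 ≤ s := by omega
  have hs2 : innerEdges P < (s + 1) ^ 2 := by
    rw [hs]
    nlinarith
  have hs0 : (0 : ℝ) < 1 / (s : ℝ) := by
    have : (0 : ℝ) < s := by exact_mod_cast hs1
    positivity
  rcases h with h | ⟨f, F, hF, he, h3⟩
  · exact (main s hs1 (Or.inr (Or.inl ⟨hO, hs2⟩)) (1 / 3)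
      (Or.inr (Or.inr (Or.inr (Or.inr ⟨h, rfl⟩))))).2 (by linarith)
  · refine (main s hs1 (Or.inr (Or.inl ⟨hO, hs2⟩)) _ (Or.inl ⟨f, F, hF, he, rfl⟩)).2 ?_
    have he2 : (2 : ℝ) ≤ (F.edgeSet.ncard : ℝ) := by exact_mod_cast he
    have h3R : 3 * (f : ℝ) ≤ (F.edgeSet.ncard : ℝ) + 5 := by exact_mod_cast h3
    have h4 : ((f : ℝ) - 2) / ((F.edgeSet.ncard : ℝ) - 1) ≤ 1 / 3 := by
      rw [div_le_iff₀ (by linarith)]
      linarith
    linarith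

end Pool.Agent.Results.MP_ac0d5f_co.RatioPart2
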