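import Mathlib
import Pool.Agent.H152.TT.Defs
import Pool.Agent.H152.TT.Defs2
import Pool.Agent.H152.TT.Lower
import Pool.Agent.H152.HR.Defs2
import Pool.Agent.H152.HR.Cmp
import Pool.Agent.H152.HR.Gen
import Pool.Agent.H152.HR.Few2
import Pool.Agent.H152.HR.Num4
import Pool.Agent.H152.HR.Small3

set_option autoImplicit false

open Finset

namespace Pool.Agent.Results.MP_ac0d5f_co.RatioSmall2

open H152TT H152HR

/-- the numerical inequality for patterns with a four-cycle and few vertices on cycles -/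
theorem ten_ineq (w r : ℕ) (hw : 3 ≤ w) (hw10 : w ≤ 10) (hr : 9 ≤ r) :
    2 / 3 < 1 / (((r + 1) / 2 + 1 : ℕ) : ℝ) + (r : ℝ) / ((w : ℝ) - 2 + r) := by
  obtain ⟨u, hu⟩ : ∃ u : ℕ, u = (r + 1) / 2 + 1 := ⟨_, rfl⟩
  rw [← hu]
  have hur : 2 * u ≤ r + 3 := by omega
  have hu1 : 1 ≤ u := by omega
  have hurR : 2 * (u : ℝ) ≤ r + 3 := by exact_mod_cast hur
  have huR : (1 : ℝ) ≤ u := by exact_mod_cast hu1
  have hrR : (9 : ℝ) ≤ r := by exact_mod_cast hr
  have hwR : (3 : ℝ) ≤ w := by exact_mod_cast hw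
  have hw10R : (w : ℝ) ≤ 10 := by exact_mod_cast hw10
  have h1 : 2 / ((r : ℝ) + 3) ≤ 1 / (u : ℝ) := by
    rw [div_le_div_iff₀ (by linarith) (by linarith)]
    linarith
  have h2 : (r : ℝ) / (8 + r) ≤ (r : ℝ) / ((w : ℝ) - 2 + r) :=
    div_le_div_of_nonneg_left (by linarith) (by linarith) (by linarith)
  have h3 : (2 : ℝ) / 3 < 2 / ((r : ℝ) + 3) + (r : ℝ) / (8 + r) := by
    rw [div_add_div _ _ (by positivity) (by positivity),
      div_lt_div_iff₀ (by norm_num) (by positivity)]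
    nlinarith
  linarith

theorem nine_ineq (w r : ℕ) (hw : 3 ≤ w) (hw9 : w ≤ 9) (hr : 9 ≤ r) :
    7 / 10 < 1 / (((r + 1) / 2 + 1 : ℕ) : ℝ) + (r : ℝ) / ((w : ℝ) - 2 + r) := by
  obtain ⟨u, hu⟩ : ∃ u : ℕ, u = (r + 1) / 2 + 1 := ⟨_, rfl⟩
  rw [← hu]
  have hur : 2 * u ≤ r + 3 := by omega
  have hu1 : 1 ≤ u := by omega
  have hurR : 2 * (u : ℝ) ≤ r + 3 := by exact_mod_cast hur
  have huR : (1 : ℝ) ≤ u := by exact_mod_cast hu1
  have hrR : (9 : ℝ) ≤ r := by exact_mod_cast hr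
  have hwR : (3 : ℝ) ≤ w := by exact_mod_cast hw
  have hw9R : (w : ℝ) ≤ 9 := by exact_mod_cast hw9
  have h1 : 2 / ((r : ℝ) + 3) ≤ 1 / (u : ℝ) := by
    rw [div_le_div_iff₀ (by linarith) (by linarith)]
    linarith
  have h2 : (r : ℝ) / (7 + r) ≤ (r : ℝ) / ((w : ℝ) - 2 + r) :=
    div_le_div_of_nonneg_left (by linarith) (by linarith) (by linarith)
  have h3 : (7 : ℝ) / 10 < 2 / ((r : ℝ) + 3) + (r : ℝ) / (7 + r) := by
    rw [div_add_div _ _ (by positivity) (by positivity),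
      div_lt_div_iff₀ (by norm_num) (by positivity)]
    nlinarith
  linarith

/-- small patterns and the exponent one third -/
theorem result {k : ℕ} (P : SimpleGraph (Fin k)) (hO : OrdBip P) (hP : 2 ≤ P.edgeSet.ncard) :
    (innerVerts P ≤ 11 ∨ innerEdges P ≤ 11 ∨ cycVerts P ≤ 9 →
      ∀ ε : ℝ, 0 < ε → ∃ N : ℕ, ∀ n : ℕ, N ≤ n → ratio P n ≤ (n : ℝ) ^ (3 / 10 + ε)) ∧
    (innerVerts P ≤ 11 ∨ innerEdges P ≤ 11 ∨ cycVerts P ≤ 9 ∨
        ((SimpleGraph.cycleGraph 4).IsContained P ∧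
          (innerVerts P ≤ 26 ∨ innerEdges P ≤ 35 ∨ cycVerts P ≤ 10)) →
      Filter.Tendsto (fun n : ℕ => ratio P n / (n : ℝ) ^ ((1 : ℝ) / 3))
        Filter.atTop (nhds 0)) := by
  have hWc := cycVerts_le P
  have weaken : ∀ (γ : ℝ), γ ≤ 3 / 10 →
      (∀ ε : ℝ, 0 < ε → ∃ N : ℕ, ∀ n : ℕ, N ≤ n → ratio P n ≤ (n : ℝ) ^ (γ + ε)) →
      ∀ ε : ℝ, 0 < ε → ∃ N : ℕ, ∀ n : ℕ, N ≤ n → ratio P n ≤ (n : ℝ) ^ (3 / 10 + ε) := by
    intro γ hγ h ε hε
    obtain ⟨N, hN⟩ := h ε hε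
    refine ⟨max N 1, fun n hn => (hN n ((le_max_left _ _).trans hn)).trans ?_⟩
    have hn1 : (1 : ℝ) ≤ n := by exact_mod_cast (le_max_right _ _).trans hn
    exact Real.rpow_le_rpow_of_exponent_le hn1 (by linarith)
  -- the two assertions, from an exponent
  have hmain : (innerVerts P ≤ 11 ∨ innerEdges P ≤ 11 ∨ cycVerts P ≤ 9 →
      ∀ ε : ℝ, 0 < ε → ∃ N : ℕ, ∀ n : ℕ, N ≤ n → ratio P n ≤ (n : ℝ) ^ (3 / 10 + ε)) ∧
      ((SimpleGraph.cycleGraph 4).IsContained P →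
        (innerVerts P ≤ 26 ∨ innerEdges P ≤ 35 ∨ cycVerts P ≤ 10) →
        ∃ γ : ℝ, γ < 1 / 3 ∧ ∃ N : ℕ, ∀ n : ℕ, N ≤ n → ratio P n ≤ (n : ℝ) ^ γ) := by
    obtain ⟨r, hRr, hnot'⟩ := exists_least P hO
    rcases Nat.eq_zero_or_pos r with h0 | h0
    · rw [h0] at hRr
      refine ⟨fun _ => weaken 0 (by norm_num) fun ε hε => ?_, fun _ _ =>
        ⟨1 / 4, by norm_num, forest_bound P hP hRr _ (by norm_num)⟩⟩
      rw [zero_add]
      exact forest_bound P hP hRr ε hε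
    have hnot := hnot' h0
    have hW3 := (gen_core P hO r h0 hnot).1
    obtain ⟨t, ht2, ht1, ht3⟩ := exists_side r (innerLeaves P) h0
    have hnac : ¬ P.IsAcyclic := by
      intro hac
      refine hnot (few_mono P 0 (r - 1) (Nat.zero_le _) ⟨hO, ∅, by simp, ?_⟩)
      rw [Finset.coe_empty, SimpleGraph.deleteEdges_empty]
      exact hac
    have hmono : (r : ℝ) / ((innerVerts P : ℝ) - innerLeaves P - 2 + r) ≤
        (r : ℝ) / ((cycVerts P : ℝ) - 2 + r) := by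
      have hW3R : (3 : ℝ) ≤ cycVerts P := by exact_mod_cast hW3
      have hrR : (1 : ℝ) ≤ r := by exact_mod_cast h0
      have hWcR : (cycVerts P : ℝ) + innerLeaves P ≤ innerVerts P := by exact_mod_cast hWc
      exact div_le_div_of_nonneg_left (by linarith) (by linarith) (by linarith)
    have fin : ∀ (s : ℕ) (δ : ℝ), (s = (r + 1) / 2 + 1 ∨
        2 * r + innerLeaves P < 2 * s ^ 2) →
        δ < 1 / (s : ℝ) + (r : ℝ) / ((cycVerts P : ℝ) - 2 + r) →
        ∃ N : ℕ, ∀ n : ℕ, N ≤ n → ratio P n ≤ (n : ℝ) ^ (1 - δ) := by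
      intro s δ hs hδ
      obtain ⟨N, hN⟩ := gen_bound P r h0 hRr hnot s hs
        (1 / (s : ℝ) + (r : ℝ) / ((cycVerts P : ℝ) - 2 + r) - δ) (by linarith)
      refine ⟨N, fun n hn => (hN n hn).trans (le_of_eq ?_)⟩
      congr 1
      ring
    -- the case of a four-cycle
    have hfour : (SimpleGraph.cycleGraph 4).IsContained P → ∀ s : ℕ, 1 ≤ s → s ≤ 5 →
        (HubSide2 s P ∨ (OrdBip P ∧ innerEdges P < (s + 1) ^ 2) ∨ Tracked s P ∨
          (∃ r : ℕ, s = (r + 1) / 2 + 1 ∧ FewCycles r P) ∨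
          (∃ a : ℕ, s = 2 * a + 1 ∧ FewHubs a P) ∨
          (∃ r : ℕ, FewCycles r P ∧ 2 * r + innerLeaves P < 2 * s ^ 2)) →
        ∀ ε : ℝ, 0 < ε → ∃ N : ℕ, ∀ n : ℕ, N ≤ n → ratio P n ≤ (n : ℝ) ^ (3 / 10 + ε) := by
      intro hc s hs1 hs5 h
      refine weaken (2 - 1 / (s : ℝ) - 3 / 2) ?_
        (ratio_of P _ _ (good_upper s hs1 P h) (lower_mono _ P hc _ ex_lower_four))
      have h1 : (1 : ℝ) ≤ s := by exact_mod_cast hs1
      have h5 : (s : ℝ) ≤ 5 := by exact_mod_cast hs5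
      have h2 : 1 / (5 : ℝ) ≤ 1 / (s : ℝ) := one_div_le_one_div_of_le (by linarith) h5
      linarith
    have exp5 : (∀ ε : ℝ, 0 < ε → ∃ N : ℕ, ∀ n : ℕ, N ≤ n → ratio P n ≤
        (n : ℝ) ^ (3 / 10 + ε)) →
        ∃ γ : ℝ, γ < 1 / 3 ∧ ∃ N : ℕ, ∀ n : ℕ, N ≤ n → ratio P n ≤ (n : ℝ) ^ γ :=
      fun h => ⟨3 / 10 + 1 / 60, by norm_num, h (1 / 60) (by norm_num)⟩
    have hB : (SimpleGraph.cycleGraph 4).IsContained P →
        (innerVerts P ≤ 26 ∨ innerEdges P ≤ 35 ∨ cycVerts P ≤ 10) →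
        ∃ γ : ℝ, γ < 1 / 3 ∧ ∃ N : ℕ, ∀ n : ℕ, N ≤ n → ratio P n ≤ (n : ℝ) ^ γ := by
      intro hc hle
      rcases hle with hle | hle | hle
      · rcases Nat.lt_or_ge t 6 with h | h
        · exact exp5 (hfour hc t (by omega) (by omega)
            (Or.inr (Or.inr (Or.inr (Or.inr (Or.inr ⟨r, hRr, ht1⟩))))))
        · have h1 := four_ineq (innerVerts P) (innerLeaves P) r t (by omega) hle h ht3
          obtain ⟨δ, hδ1, hδ2⟩ := exists_between h1
          exact ⟨1 - δ, by linarith, fin t δ (Or.inr ht1) (by linarith)⟩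
      · exact exp5 (hfour hc 5 (by norm_num) le_rfl (Or.inr (Or.inl ⟨hO, by omega⟩)))
      · rcases Nat.lt_or_ge r 9 with h | h
        · exact exp5 (hfour hc ((r + 1) / 2 + 1) (by omega) (by omega)
            (Or.inr (Or.inr (Or.inr (Or.inl ⟨r, rfl, hRr⟩)))))
        · have h1 := ten_ineq (cycVerts P) r hW3 hle h
          obtain ⟨δ, hδ1, hδ2⟩ := exists_between h1
          exact ⟨1 - δ, by linarith, fin _ δ (Or.inl rfl) hδ2⟩
    refine ⟨fun hle => ?_, hB⟩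
    by_cases hc : (SimpleGraph.cycleGraph 4).IsContained P
    · rcases hle with hle | hle | hle
      · -- at most eleven inner vertices
        rcases Nat.lt_or_ge t 6 with h | h
        · exact hfour hc t (by omega) (by omega)
            (Or.inr (Or.inr (Or.inr (Or.inr (Or.inr ⟨r, hRr, ht1⟩)))))
        · have h25 : 5 ^ 2 ≤ (t - 1) ^ 2 := Nat.pow_le_pow_left (by omega) 2
          have hr21 : 21 ≤ r := by omega
          have hr21R : (21 : ℝ) ≤ r := by exact_mod_cast hr21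
          have hW3R : (3 : ℝ) ≤ cycVerts P := by exact_mod_cast hW3
          have hW11 : cycVerts P ≤ 11 := by omega
          have hW11R : (cycVerts P : ℝ) ≤ 11 := by exact_mod_cast hW11
          have ht0 : (6 : ℝ) ≤ t := by exact_mod_cast h
          have h7 : (7 : ℝ) / 10 ≤ (r : ℝ) / ((cycVerts P : ℝ) - 2 + r) := by
            rw [div_le_div_iff₀ (by norm_num) (by linarith)]
            linarith
          have h8 : (0 : ℝ) < 1 / (t : ℝ) := by
            have : (0 : ℝ) < t := by linarith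
            positivity
          refine weaken (3 / 10) le_rfl fun ε hε => ?_
          obtain ⟨N, hN⟩ := fin t (7 / 10) (Or.inr ht1) (by linarith)
          refine ⟨max N 1, fun n hn => (hN n ((le_max_left _ _).trans hn)).trans ?_⟩
          have hn1 : (1 : ℝ) ≤ n := by exact_mod_cast (le_max_right _ _).trans hn
          exact Real.rpow_le_rpow_of_exponent_le hn1 (by linarith)
      · exact hfour hc 5 (by norm_num) le_rfl (Or.inr (Or.inl ⟨hO, by omega⟩))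
      · rcases Nat.lt_or_ge r 9 with h | h
        · exact hfour hc ((r + 1) / 2 + 1) (by omega) (by omega)
            (Or.inr (Or.inr (Or.inr (Or.inl ⟨r, rfl, hRr⟩))))
        · have h1 := nine_ineq (cycVerts P) r hW3 hle h
          refine weaken (3 / 10) le_rfl fun ε hε => ?_
          obtain ⟨N, hN⟩ := fin _ (7 / 10) (Or.inl rfl) h1
          refine ⟨max N 1, fun n hn => (hN n ((le_max_left _ _).trans hn)).trans ?_⟩
          have hn1 : (1 : ℝ) ≤ n := by exact_mod_cast (le_max_right _ _).trans hn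
          exact Real.rpow_le_rpow_of_exponent_le hn1 (by linarith)
    · -- no four-cycle
      have hcl : (HubSide2 2 P ∨ FewCycles 2 P) ∧ ∃ r' : ℕ, 2 ≤ r' ∧ r' ≤ 5 ∧
          (SimpleGraph.cycleGraph (2 * r')).IsContained P := by
        rcases hle with hle | hle | hle
        · exact ⟨Or.inl (side2_small P hO hc (Or.inl hle)), exists_short2 P hO (Or.inl hle) hnac⟩
        · exact ⟨Or.inl (side2_small P hO hc (Or.inr hle)), exists_short2 P hO (Or.inr hle) hnac⟩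
        · obtain ⟨r', h1, h2, h3⟩ := exists_even P hO hnac
          exact ⟨Or.inr (few_two P hO hc hle), r', h1, by omega, h3⟩
      obtain ⟨hcl, r', hr2, hr5, hcy⟩ := hcl
      have hup : ∀ ε : ℝ, 0 < ε → ∃ N : ℕ, ∀ n : ℕ, N ≤ n →
          (exOrd P n : ℝ) ≤ (n : ℝ) ^ ((2 - 1 / ((2 : ℕ) : ℝ)) + ε) := by
        rcases hcl with h | h
        · exact good_upper 2 (by norm_num) P (Or.inl h)
        · exact good_upper 2 (by norm_num) P (Or.inr (Or.inr (Or.inr (Or.inl ⟨2, rfl, h⟩))))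
      refine weaken (2 - 1 / ((2 : ℕ) : ℝ) - 6 / 5) (by norm_num)
        (ratio_of P _ _ hup (lower_mono _ P hcy _ (ex_lower_ten r' hr2 hr5)))
  refine ⟨hmain.1, fun h => ?_⟩
  have key : ∃ γ : ℝ, γ < 1 / 3 ∧ ∃ N : ℕ, ∀ n : ℕ, N ≤ n → ratio P n ≤ (n : ℝ) ^ γ := by
    rcases h with h | h | h | ⟨h, h'⟩
    · exact ⟨3 / 10 + 1 / 60, by norm_num, hmain.1 (Or.inl h) (1 / 60) (by norm_num)⟩
    · exact ⟨3 / 10 + 1 / 60, by norm_num, hmain.1 (Or.inr (Or.inl h)) (1 / 60) (by norm_num)⟩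
    · exact ⟨3 / 10 + 1 / 60, by norm_num, hmain.1 (Or.inr (Or.inr h)) (1 / 60) (by norm_num)⟩
    · exact hmain.2 h h'
  obtain ⟨γ, hγ, hN⟩ := key
  exact tendsto_third P γ hγ hN

end Pool.Agent.Results.MP_ac0d5f_co.RatioSmall2
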